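import Pool.Agent.V5helper49.PTR.Stm

set_option autoImplicit false

namespace V5helper4.PTR

open Finset Filter
open Pool.Agent.V5helper42.RS (W model)
open Pool.Agent.V5helper49.PTR

theorem adm_refl {N : ℕ} {F : Finset ℕ} (hF : F ⊆ Icc 1 N) (h : Adm F) :
    Adm (F.image fun k => N - k) := by
  intro p hp
  obtain ⟨b, hb, hb'⟩ := h p hp
  have hp0 : 0 < p := hp.pos
  refine ⟨(N + (p - b)) % p, Nat.mod_lt _ hp0, ?_⟩
  intro t ht
  obtain ⟨k, hk, rfl⟩ := mem_image.1 ht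
  have hkN : k ≤ N := (mem_Icc.1 (hF hk)).2
  intro hcon
  apply hb' k hk
  have h1 : N - k ≡ N + (p - b) [MOD p] := hcon
  have h2 : N - k + (k + b) ≡ N + (p - b) + (k + b) [MOD p] := h1.add_right _
  have h3 : N - k + (k + b) = N + b := by omega
  have h4 : N + (p - b) + (k + b) = N + k + p := by omega
  rw [h3, h4] at h2
  have h5 : N + b ≡ N + k [MOD p] := by
    refine h2.trans ?_
    exact Nat.add_modEq_right
  have h6 : b ≡ k [MOD p] := Nat.ModEq.add_left_cancel' N h5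
  have h7 : b % p = k % p := h6
  rw [Nat.mod_eq_of_lt hb] at h7
  exact h7.symm

theorem poly_ev (s N : ℕ) (hs : 1 ≤ s) (hN : 4 * 2 ^ s + 2 ≤ N) :
    4 * (N + 2) ^ s + 2 * N ≤ N ^ (s + 1) := by
  have h0 : 1 ≤ 2 ^ s := Nat.one_le_two_pow
  have h1 : N + 2 ≤ 2 * N := by omega
  have h2 : (N + 2) ^ s ≤ 2 ^ s * N ^ s := by
    calc (N + 2) ^ s ≤ (2 * N) ^ s := Nat.pow_le_pow_left h1 s
      _ = 2 ^ s * N ^ s := Nat.mul_pow 2 N s
  have h3 : N ≤ N ^ s := Nat.le_self_pow (by omega) N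
  calc 4 * (N + 2) ^ s + 2 * N ≤ 4 * (2 ^ s * N ^ s) + 2 * N ^ s := by omega
    _ = (4 * 2 ^ s + 2) * N ^ s := by ring
    _ ≤ N * N ^ s := Nat.mul_le_mul_right _ hN
    _ = N ^ (s + 1) := by ring

theorem sqrt_ge {x : ℝ} (hx : 16 ≤ x) : x ^ (1 / 4 : ℝ) ≤ Real.sqrt x / 2 := by
  have hx0 : 0 ≤ x := by linarith
  have h1 : Real.sqrt x = x ^ (1 / 4 : ℝ) * x ^ (1 / 4 : ℝ) := by
    rw [Real.sqrt_eq_rpow, ← Real.rpow_add (by linarith)]
    norm_num
  have h2 : (2 : ℝ) ≤ x ^ (1 / 4 : ℝ) := by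
    have h3 : (2 : ℝ) = (16 : ℝ) ^ (1 / 4 : ℝ) := by
      have : (16 : ℝ) = 2 ^ (4 : ℝ) := by norm_num
      rw [this, ← Real.rpow_mul (by norm_num)]
      norm_num
    rw [h3]
    exact Real.rpow_le_rpow (by norm_num) hx (by norm_num)
  have h4 : 0 ≤ x ^ (1 / 4 : ℝ) := Real.rpow_nonneg hx0 _
  rw [h1]
  nlinarith

theorem t_STEP (hADM : S_ADM) (hCT : S_CT) : S_STEP := by
  classical
  obtain ⟨β, hβ0, hβ1, NA, hA⟩ := hADM
  intro s hs
  have hs0 : (0 : ℝ) < (s : ℝ) + 1 := by positivity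
  have hs3 : (3 : ℝ) ≤ (s : ℝ) + 1 := by
    have : (2 : ℝ) ≤ s := by exact_mod_cast hs
    linarith
  set κ : ℝ := β / (4 * (s + 1)) with hκ
  have hκ0 : 0 < κ := by positivity
  have hκs : κ * (s + 1) = β / 4 := by
    rw [hκ]
    field_simp
  have hκβ : κ ≤ β / 4 := by
    rw [← hκs]
    nlinarith
  refine ⟨κ, hκ0, by linarith, ?_⟩
  intro a hR hU
  obtain ⟨NC, hC⟩ := hCT s hs (model a) hR
  -- eventual inequalities
  have hexp : ∀ᶠ N : ℕ in atTop, ((N : ℝ) ^ (s + 1)) ≤ Real.exp (β * N) := by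
    have h1 := (isLittleO_pow_exp_pos_mul_atTop (k := s + 1) hβ0).comp_tendsto
      (tendsto_natCast_atTop_atTop (R := ℝ))
    filter_upwards [h1.bound (show (0 : ℝ) < 1 by norm_num)] with N hN
    simp only [Function.comp] at hN
    rw [Real.norm_of_nonneg (by positivity), Real.norm_of_nonneg (by positivity), one_mul] at hN
    exact hN
  have hUN : ∀ᶠ N : ℕ in atTop, ∀ (H : ℕ) (T : Finset ℕ), (H : ℝ) ≤ Real.log (Real.exp N) →
      T ⊆ range (H + 1) → (T.card : ℝ) ≤ Real.log (Real.exp N) ^ (1 / 10 : ℝ) → Adm T →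
      ∃ n : ℕ, Real.exp N < n ∧ (n : ℝ) ≤ 4 * Real.exp N ∧ ∀ t ∈ T, n + t ∈ model a :=
    (Real.tendsto_exp_atTop.comp (tendsto_natCast_atTop_atTop (R := ℝ))).eventually hU
  obtain ⟨N₀, hN₀⟩ := eventually_atTop.1 (hexp.and (hUN.and ((eventually_ge_atTop NA).and
    ((eventually_ge_atTop NC).and ((eventually_ge_atTop (4 * 2 ^ s + 2)).and
    (eventually_ge_atTop 16))))))
  refine ⟨N₀, fun N hN F hFN hFc hFadm => ?_⟩
  obtain ⟨e1, e2, e3, e4, e5, e6⟩ := hN₀ N hN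
  have hN16 : (16 : ℝ) ≤ N := by exact_mod_cast e6
  have hN0 : (0 : ℝ) < N := by linarith
  obtain ⟨n, hn1, hn2, hn3⟩ := e2 N (F.image fun k => N - k) (by rw [Real.log_exp]) (by
      intro t ht
      obtain ⟨k, _, rfl⟩ := mem_image.1 ht
      exact mem_range.2 (by omega)) (by
      rw [Real.log_exp]
      refine le_trans ?_ hFc
      exact_mod_cast card_image_le) (adm_refl hFN hFadm)
  obtain ⟨N', hN'⟩ : ∃ N', N' = n + N := ⟨_, rfl⟩
  have hexpN : (N : ℝ) + 1 ≤ Real.exp N := Real.add_one_le_exp _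
  have hN'R : (N' : ℝ) = n + N := by rw [hN']; push_cast; rfl
  have hN'1 : Real.exp N ≤ N' := by rw [hN'R]; linarith
  have hN'0 : (0 : ℝ) < N' := lt_of_lt_of_le (Real.exp_pos _) hN'1
  have hN'ge : (1 : ℝ) ≤ N' := by linarith
  have hNN' : N < N' := by
    have : (N : ℝ) < N' := by linarith
    exact_mod_cast this
  have hlogN' : Real.log N' ≤ N + 2 := by
    rw [Real.log_le_iff_le_exp hN'0, Real.exp_add]
    have h1 : (5 : ℝ) ≤ Real.exp 2 := by
      have h2 : Real.exp 2 = Real.exp 1 * Real.exp 1 := by rw [← Real.exp_add]; norm_num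
      have h3 := Real.exp_one_gt_d9
      rw [h2]
      nlinarith
    have h4 := Real.exp_pos (N : ℝ)
    rw [hN'R]
    nlinarith
  have hlog0 : 0 ≤ Real.log N' := Real.log_nonneg hN'ge
  -- the bound `N' ^ β`
  have hY : Real.exp (β * N) ≤ (N' : ℝ) ^ β := by
    calc Real.exp (β * N) = (Real.exp N) ^ β := by
          rw [← Real.exp_mul]
          congr 1
          ring
      _ ≤ (N' : ℝ) ^ β := Real.rpow_le_rpow (Real.exp_pos _).le hN'1 hβ0.le
  obtain ⟨Y, hYd⟩ : ∃ Y : ℝ, Y = (N' : ℝ) ^ β := ⟨_, rfl⟩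
  rw [← hYd] at hY
  obtain ⟨X, hX⟩ : ∃ X : ℕ, X = ⌊Y⌋₊ := ⟨_, rfl⟩
  have hY0 : 0 ≤ Y := by rw [hYd]; positivity
  have hXY : (X : ℝ) ≤ Y := by rw [hX]; exact Nat.floor_le hY0
  have hXY' : Y < X + 1 := by rw [hX]; exact Nat.lt_floor_add_one _
  have hNpY : (N : ℝ) ^ (s + 1) ≤ Y := e1.trans hY
  have hNX : N ^ (s + 1) ≤ X := by
    rw [hX]
    apply Nat.le_floor
    push_cast
    exact hNpY
  have hpoly := poly_ev s N (by omega) e5
  have hNs : N ≤ N ^ (s + 1) := Nat.le_self_pow (by omega) N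
  have hNltX : N ≤ X := hNs.trans hNX
  have h64 : 64 ≤ N ^ (s + 1) := by
    calc 64 ≤ 16 ^ 3 := by norm_num
      _ ≤ N ^ 3 := Nat.pow_le_pow_left e6 3
      _ ≤ N ^ (s + 1) := Nat.pow_le_pow_right (by omega) (by omega)
  have hY64 : (64 : ℝ) ≤ Y := by
    have : ((64 : ℕ) : ℝ) ≤ ((N ^ (s + 1) : ℕ) : ℝ) := by exact_mod_cast h64
    push_cast at this
    linarith
  have hYN : Y ≤ (N' : ℝ) ^ (1 / 12 : ℝ) := by
    rw [hYd]
    exact Real.rpow_le_rpow_of_exponent_le hN'ge (by linarith)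
  -- the count
  have hcount : ∀ x : ℕ, N ^ (s + 1) ≤ x → x ≤ X →
      Real.sqrt x / 2 ≤ (((Ioc N x).filter (fun k => N' - k ∈ model a)).card : ℝ) := by
    intro x hx hxX
    refine hC N' (e4.trans hNN'.le) N x ?_ ?_
    · have h1 : Real.log N' ^ s ≤ ((N : ℝ) + 2) ^ s := pow_le_pow_left₀ hlog0 hlogN' s
      have h2 : 4 * ((N : ℝ) + 2) ^ s + 2 * N ≤ x := by exact_mod_cast hpoly.trans hx
      linarith
    · have : (x : ℝ) ≤ X := by exact_mod_cast hxX
      linarith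
  obtain ⟨F', hF'⟩ : ∃ F' : Finset ℕ, F' = F ∪ (Ioc N X).filter (fun k => N' - k ∈ model a) :=
    ⟨_, rfl⟩
  have memF' : ∀ k, k ∈ F' ↔ k ∈ F ∨ (N < k ∧ k ≤ X) ∧ N' - k ∈ model a := by
    intro k
    rw [hF', mem_union, mem_filter, mem_Ioc]
  have hXN' : X ≤ N' := by
    have h1 : (N' : ℝ) ^ (1 / 12 : ℝ) ≤ (N' : ℝ) ^ (1 : ℝ) :=
      Real.rpow_le_rpow_of_exponent_le hN'ge (by norm_num)
    rw [Real.rpow_one] at h1
    have : (X : ℝ) ≤ N' := by linarith
    exact_mod_cast this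
  have hF'X : F' ⊆ Icc 1 X := by
    intro k hk
    rw [mem_Icc]
    rcases (memF' k).1 hk with h | h
    · have := mem_Icc.1 (hFN h)
      omega
    · omega
  have hgood : ∀ k ∈ F', N' - k ∈ model a := by
    intro k hk
    rcases (memF' k).1 hk with h | h
    · have h1 := hn3 (N - k) (mem_image_of_mem _ h)
      have h2 := mem_Icc.1 (hFN h)
      have h3 : N' - k = n + (N - k) := by omega
      rw [h3]
      exact h1
    · exact h.2
  have hroot : (N' : ℝ) ^ (β / 4) ≤ Real.sqrt X / 2 := by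
    have h1 : (N' : ℝ) ^ (β / 4) = Y ^ (1 / 4 : ℝ) := by
      rw [hYd, ← Real.rpow_mul hN'0.le]
      congr 1
      ring
    rw [h1]
    obtain ⟨r, hr⟩ : ∃ r : ℝ, r = Y ^ (1 / 4 : ℝ) := ⟨_, rfl⟩
    have hr0 : 0 ≤ r := by rw [hr]; positivity
    have hr2 : r * r = Real.sqrt Y := by
      rw [hr, Real.sqrt_eq_rpow, ← Real.rpow_add (by linarith)]
      norm_num
    have hsq8 : (8 : ℝ) ≤ Real.sqrt Y := by
      apply Real.le_sqrt_of_sq_le
      linarith
    rw [← hr]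
    have h2 : 2 * r ≤ Real.sqrt X := by
      apply Real.le_sqrt_of_sq_le
      have h3 : Real.sqrt Y * Real.sqrt Y = Y := Real.mul_self_sqrt hY0
      have h4 : (2 * r) ^ 2 = 4 * Real.sqrt Y := by rw [← hr2]; ring
      rw [h4]
      nlinarith
    linarith
  have hbig : Real.sqrt X / 2 ≤ (((Ioc N X).filter (fun k => N' - k ∈ model a)).card : ℝ) :=
    hcount X hNX le_rfl
  refine ⟨N', F', hNN', fun k hk => ?_, ?_, ?_, ?_, ?_, hgood, ?_, ?_⟩
  · have := mem_Icc.1 (hF'X hk)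
    exact mem_Icc.2 ⟨this.1, this.2.trans hXN'⟩
  · have h1 : F'.card ≤ X := by
      have := card_le_card hF'X
      rwa [Nat.card_Icc, Nat.add_sub_cancel] at this
    have h2 : (F'.card : ℝ) ≤ X := by exact_mod_cast h1
    have h3 : (N' : ℝ) ^ (1 / 12 : ℝ) ≤ (N' : ℝ) ^ (1 / 10 : ℝ) :=
      Real.rpow_le_rpow_of_exponent_le hN'ge (by norm_num)
    linarith
  · refine hA N' (e3.trans hNN'.le) a F' (fun k hk => ?_) hgood
    have := mem_Icc.1 (hF'X hk)
    refine ⟨this.1, ?_⟩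
    have h2 : (k : ℝ) ≤ X := by exact_mod_cast this.2
    rw [← hYd]
    linarith
  · intro k hk
    exact (memF' k).2 (Or.inl hk)
  · intro k hk hkN
    rcases (memF' k).1 hk with h | h
    · exact h
    · omega
  · rw [hκs]
    refine hroot.trans (hbig.trans ?_)
    have : (Ioc N X).filter (fun k => N' - k ∈ model a) ⊆ F' := by
      rw [hF']
      exact subset_union_right
    exact_mod_cast card_le_card this
  · intro x hx hxN'
    have hx' : N ^ (s + 1) ≤ x := by exact_mod_cast hx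
    have hx1 : (1 : ℝ) ≤ x := by
      have : 1 ≤ x := by omega
      exact_mod_cast this
    rcases Nat.le_total x X with hxX | hXx
    · have h1 := hcount x hx' hxX
      have h2 : (16 : ℝ) ≤ x := by
        have : 16 ≤ x := by omega
        exact_mod_cast this
      have h3 : (x : ℝ) ^ κ ≤ (x : ℝ) ^ (1 / 4 : ℝ) :=
        Real.rpow_le_rpow_of_exponent_le hx1 (by linarith)
      refine h3.trans ((sqrt_ge h2).trans (h1.trans ?_))
      have : (Ioc N x).filter (fun k => N' - k ∈ model a) ⊆ F'.filter (fun k => k ≤ x) := by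
        intro k hk
        rw [mem_filter, mem_Ioc] at hk
        rw [mem_filter, memF']
        exact ⟨Or.inr ⟨⟨hk.1.1, hk.1.2.trans hxX⟩, hk.2⟩, hk.1.2⟩
      exact_mod_cast card_le_card this
    · have h3 : (x : ℝ) ^ κ ≤ (N' : ℝ) ^ (β / 4) := by
        have h4 : (x : ℝ) ≤ N' := by exact_mod_cast hxN'
        calc (x : ℝ) ^ κ ≤ (N' : ℝ) ^ κ := Real.rpow_le_rpow (by linarith) h4 hκ0.le
          _ ≤ (N' : ℝ) ^ (β / 4) := Real.rpow_le_rpow_of_exponent_le hN'ge hκβ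
      refine h3.trans (hroot.trans (hbig.trans ?_))
      have : (Ioc N X).filter (fun k => N' - k ∈ model a) ⊆ F'.filter (fun k => k ≤ x) := by
        intro k hk
        rw [mem_filter, mem_Ioc] at hk
        rw [mem_filter, memF']
        exact ⟨Or.inr ⟨⟨hk.1.1, hk.1.2⟩, hk.2⟩, hk.1.2.trans hXx⟩
      exact_mod_cast card_le_card this

end V5helper4.PTR
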